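import Pool.Agent.Q102.PG.Nil
import Pool.Agent.Q102.PG.Young

/-! Cayley graphs of `A_n` and `S_n` with respect to generating sets for which some ball contains
exponentially many elements of a coset of a nilpotent subgroup: diameters with explicit small
exponents. -/

namespace Pool.Agent.Results.MP_731536_al.NilpotentCosets
open Equiv Equiv.Perm Finset Necf73648 Pool.Agent.Q102.PG Pool.Agent.Q102.BP

/-- There is `C` such that for all `n ≥ 5`, all `A_n ≤ G ≤ S_n`, all generating sets `S` of `G`, all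
subgroups `P` of `G`, all `g` in `G` and all `l` such that `H n G P b` holds for the number `b` of
elements of `g P` of word length at most `l` over `S`, the diameter of the Cayley graph of `G` with
respect to `S` is at most `C (n ^ e (log n) ^ 3 + n (log n) ^ 2 l)`. -/
def DiamBound (e : ℕ) (H : ∀ (n : ℕ) (G : Subgroup (Perm (Fin n))), Subgroup G → ℕ → Prop) : Prop :=
  ∃ C : ℝ, ∀ (n : ℕ) (_ : 5 ≤ n) (G : Subgroup (Perm (Fin n))) (_ : alternatingGroup (Fin n) ≤ G)
    (S : Set G) (_ : Subgroup.closure S = ⊤) (P : Subgroup G) (g : G) (l : ℕ)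
    (_ : H n G P {x : G | (cayleyGraph S).dist 1 x ≤ l ∧ g⁻¹ * x ∈ P}.ncard),
    ((cayleyGraph S).diam : ℝ) ≤ C * ((n : ℝ) ^ e * Real.log n ^ 3 + n * Real.log n ^ 2 * l)

theorem isNil_map {n : ℕ} {G : Subgroup (Perm (Fin n))} {P : Subgroup G}
    (h : Group.IsNilpotent P) : Group.IsNilpotent (P.map G.subtype) :=
  (Group.isNilpotent_congr
    (P.equivMapOfInjective G.subtype (Subgroup.subtype_injective G))).1 h

theorem parts {α : ℝ} {e : ℕ} (hα0 : 1 / 4 ≤ α) (hα1 : α ≤ 1)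
    (hdia : ∀ η : ℝ, 0 < η → Dia (α - η) e) {η : ℝ} (hη : 0 < η) (hη4 : η ≤ 1 / 4) :
    DiamBound e (fun n _ _ b => (n : ℝ) ^ ((1 - α + η) * n) ≤ b) ∧
    DiamBound e (fun n _ P b => Group.IsNilpotent P ∧ (2 : ℝ) ^ ((1 - α + η) * n) ≤ b) ∧
    (∀ p : ℕ, p.Prime → DiamBound e (fun n _ P b =>
      IsPGroup p P ∧ (p : ℝ) ^ ((1 - α + η) * n / (p - 1 : ℕ)) ≤ b)) ∧
    DiamBound e (fun n _ P b =>
      (∀ x ∈ P, ∀ y ∈ P, x * y = y * x) ∧ (3 : ℝ) ^ ((1 - α + η) * n / 3) ≤ b) ∧
    DiamBound e (fun n G P b => 2 ≤ b ∧ ∃ f : Fin n → Fin n,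
      (∀ c, (4 * #(univ.filter fun i => f i = c) : ℝ) ≤ η * n) ∧
      (∏ c, ((Set.range fun (x : P) (i : {i : Fin n // f i = c}) =>
        ((x : G) : Perm (Fin n)) i).ncard : ℝ)) ^ (1 - α + η) ≤ b) := by
  refine ⟨?_, ?_, fun p hp => ?_, ?_, ?_⟩
  · obtain ⟨C, hC⟩ := main_all (α := α) (e := e) (by linarith) hα1 hdia hη
    refine ⟨C, fun n hn G hG S hS P g l h => hC n hn G hG S hS l (h.trans ?_)⟩
    have h1 : {x : G | (cayleyGraph S).dist 1 x ≤ l ∧ g⁻¹ * x ∈ P} ⊆
        {x : G | (cayleyGraph S).dist 1 x ≤ l} := fun x hx => hx.1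
    exact_mod_cast Set.ncard_le_ncard h1 (Set.toFinite _)
  · obtain ⟨C, hC⟩ := main_class (α := α) (e := e) (by linarith) hα1 hdia hη (B := 2) (q := 1)
      (m := 1) le_rfl le_rfl
    refine ⟨C, fun n hn G hG S hS P g l h => hC n hn G hG S hS P g l
      (fun r hr => key_nil (by omega) (isNil_map h.1) hr) ?_⟩
    have h1 := h.2
    rw [count]
    simpa using h1
  · have : Fact p.Prime := ⟨hp⟩
    have hp2 := hp.two_le
    obtain ⟨C, hC⟩ := main_class (α := α) (e := e) (by linarith) hα1 hdia hη (B := p)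
      (q := p - 1) (m := p - 1) hp2 (by omega)
    exact ⟨C, fun n hn G hG S hS P g l h => hC n hn G hG S hS P g l
      (fun r hr => key_pgroup (by omega) (isPGroup_map h.1) hr) h.2⟩
  · obtain ⟨C, hC⟩ := main_class (α := α) (e := e) (by linarith) hα1 hdia hη (B := 3) (q := 3)
      (m := 3) (by norm_num) (by norm_num)
    refine ⟨C, fun n hn G hG S hS P g l h => hC n hn G hG S hS P g l
      (fun r hr => key_ab (by omega) ?_ hr) ?_⟩
    · intro a ha b hb
      obtain ⟨a', ha', rfl⟩ := Subgroup.mem_map.1 ha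
      obtain ⟨b', hb', rfl⟩ := Subgroup.mem_map.1 hb
      rw [← map_mul, h.1 a' ha' b' hb', map_mul]
    · have h1 := h.2
      rw [count]
      exact_mod_cast h1
  · obtain ⟨C, hC⟩ := main_parts (α := α) (e := e) hα0 hα1 hdia hη hη4
    refine ⟨C, fun n hn G hG S hS P g l h => ?_⟩
    obtain ⟨h2, f, hf, hb⟩ := h
    refine hC n hn G hG S hS P g l f hf h2 ?_
    rw [prod_congr rfl fun c _ => by rw [ncard_range P f c]] at hb
    exact hb

/-- Let `(α, e)` be `(1/4, 4)`, `(1/3, 5)` or `(1/2, 7)` and `0 < η ≤ 1/4`. The diameter is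
at most `C (n ^ e (log n) ^ 3 + n (log n) ^ 2 l)` if the ball of radius `l` contains (a) at least
`n ^ ((1 - α + η) n)` elements, or (b) at least `2 ^ ((1 - α + η) n)` elements of a coset of a
nilpotent subgroup, or (c) at least `p ^ ((1 - α + η) n / (p - 1))` elements of a coset of a
`p`-subgroup, or (d) at least `3 ^ ((1 - α + η) n / 3)` elements of a coset of an abelian subgroup,
or (e) at least two and at least `M ^ (1 - α + η)` elements of a coset of a subgroup `P`, where the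
`n` points are divided into parts with at most `η n / 4` points and `M` is the product over the
parts of the number of maps induced by `P` on the part. -/
theorem result (α : ℝ) (e : ℕ)
    (h : (α = 1 / 4 ∧ e = 4) ∨ (α = 1 / 3 ∧ e = 5) ∨ (α = 1 / 2 ∧ e = 7))
    (η : ℝ) (hη : 0 < η) (hη4 : η ≤ 1 / 4) :
    DiamBound e (fun n _ _ b => (n : ℝ) ^ ((1 - α + η) * n) ≤ b) ∧
    DiamBound e (fun n _ P b => Group.IsNilpotent P ∧ (2 : ℝ) ^ ((1 - α + η) * n) ≤ b) ∧
    (∀ p : ℕ, p.Prime → DiamBound e (fun n _ P b =>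
      IsPGroup p P ∧ (p : ℝ) ^ ((1 - α + η) * n / (p - 1 : ℕ)) ≤ b)) ∧
    DiamBound e (fun n _ P b =>
      (∀ x ∈ P, ∀ y ∈ P, x * y = y * x) ∧ (3 : ℝ) ^ ((1 - α + η) * n / 3) ≤ b) ∧
    DiamBound e (fun n G P b => 2 ≤ b ∧ ∃ f : Fin n → Fin n,
      (∀ c, (4 * #(univ.filter fun i => f i = c) : ℝ) ≤ η * n) ∧
      (∏ c, ((Set.range fun (x : P) (i : {i : Fin n // f i = c}) =>
        ((x : G) : Perm (Fin n)) i).ncard : ℝ)) ^ (1 - α + η) ≤ b) := by
  obtain ⟨rfl, rfl⟩ | ⟨rfl, rfl⟩ | ⟨rfl, rfl⟩ := h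
  · exact parts (by norm_num) (by norm_num)
      (fun η hη => dia_of_red (by norm_num) (red4 hη)) hη hη4
  · exact parts (by norm_num) (by norm_num)
      (fun η hη => dia_of_red (by norm_num) (red3 hη)) hη hη4
  · exact parts (by norm_num) (by norm_num)
      (fun η hη => dia_of_red (by norm_num) (red2 hη)) hη hη4

end Pool.Agent.Results.MP_731536_al.NilpotentCosets
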