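import Pool.Agent.Q179.BD.Fin2

/-! Babai's conjecture for alternating groups: balls containing exponentially many elements of a
coset of a 2-subgroup, and short elements generating a 2-group or a solvable group. -/

namespace Pool.Agent.Results.MP_731536_al.TwoSubgroupCosets
open Equiv Equiv.Perm Necf73648

/-- Let `n ≥ 5`, `A_n ≤ G ≤ S_n` and let `S` generate `G`; lengths and balls are those of the
Cayley graph of `G` for `S`.
(1) If the ball of radius `l` contains at least `2 ^ k * b` elements of a coset of a subgroup of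
order `2 ^ a * b`, where `k ≥ 600 √n`, then the diameter is at most `(l + 1) * n ^ (600 n / k)`.
(2) If the ball of radius `l` contains at least `2 m` elements of a coset of a 2-subgroup all of
whose orbits on the `n` points have at most `m` elements, then the diameter is at most
`(2 n l + 1) * n ^ (50000 m ^ 2)`.
(3) Let `Y` be a set of elements of length at most `l` which generates a 2-group `P`. Then all
elements of `P` have length at most `2 n ^ 5 l`, and if `P` has at least `2 ^ k` elements, where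
`k ≥ 600 √n`, then the diameter is at most `(2 n ^ 5 l + 1) * n ^ (600 n / k)`.
(4) In every group with generating set `S`, a set `Y` of elements of length at most `l` which
generates a finite solvable group of derived length at most `r`, exponent dividing `e` and order
at most `2 ^ M` generates a group all of whose elements have length at most `2 M ^ 2 e 4 ^ r l`; if
`G` is as above and `2 ^ a` divides the order of the group generated by `Y`, `a ≥ 600 √n`, then
the diameter is at most `(2 M ^ 2 e 4 ^ r l + 1) * n ^ (600 n / a)`.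
(5) The diameters of all such `G` for all `S` are at most `n ^ C` for some `C` if and only if there
are `C` and `ε > 0` such that always the ball of radius `n ^ C` contains at least `2 ^ (ε n)`
elements of a coset of some 2-subgroup. -/
theorem result :
    (∀ (n : ℕ) (_ : 5 ≤ n) (G : Subgroup (Perm (Fin n))) (_ : alternatingGroup (Fin n) ≤ G)
      (S : Set G) (_ : Subgroup.closure S = ⊤),
      (∀ (Q : Subgroup G) (a b : ℕ) (_ : Nat.card Q = 2 ^ a * b) (g : G) (l : ℕ) (k : ℝ)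
        (_ : 600 * √(n : ℝ) ≤ k)
        (_ : (2 : ℝ) ^ k * b ≤
          ({x : G | g⁻¹ * x ∈ Q ∧ (cayleyGraph S).dist 1 x ≤ l}.ncard : ℝ)),
        ((cayleyGraph S).diam : ℝ) ≤ (l + 1) * (n : ℝ) ^ (600 * n / k)) ∧
      (∀ (Q : Subgroup G) (_ : IsPGroup 2 Q) (m : ℕ)
        (_ : ∀ x : Fin n, {y | ∃ q ∈ Q, (q : Perm (Fin n)) x = y}.ncard ≤ m) (g : G) (l : ℕ)
        (_ : 2 * m ≤ {x : G | g⁻¹ * x ∈ Q ∧ (cayleyGraph S).dist 1 x ≤ l}.ncard),
        (cayleyGraph S).diam ≤ (2 * n * l + 1) * n ^ (50000 * m ^ 2)) ∧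
      (∀ (Y : Set G) (l : ℕ) (_ : ∀ y ∈ Y, (cayleyGraph S).dist 1 y ≤ l)
        (_ : IsPGroup 2 (Subgroup.closure Y)),
        (∀ x ∈ Subgroup.closure Y, (cayleyGraph S).dist 1 x ≤ 2 * n ^ 5 * l) ∧
        (∀ k : ℝ, 600 * √(n : ℝ) ≤ k → (2 : ℝ) ^ k ≤ Nat.card (Subgroup.closure Y) →
          ((cayleyGraph S).diam : ℝ) ≤ (2 * n ^ 5 * l + 1) * (n : ℝ) ^ (600 * n / k))) ∧
      (∀ (Y : Set G) (l : ℕ) (_ : ∀ y ∈ Y, (cayleyGraph S).dist 1 y ≤ l) (M r e a : ℕ)
        (_ : 1 ≤ M) (_ : Nat.card (Subgroup.closure Y) ≤ 2 ^ M)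
        (_ : derivedSeries (Subgroup.closure Y) r = ⊥) (_ : 1 ≤ e)
        (_ : ∀ x ∈ Subgroup.closure Y, x ^ e = 1) (_ : 2 ^ a ∣ Nat.card (Subgroup.closure Y))
        (_ : 600 * √(n : ℝ) ≤ a),
        ((cayleyGraph S).diam : ℝ) ≤
          (2 * M ^ 2 * e * 4 ^ r * l + 1) * (n : ℝ) ^ (600 * n / (a : ℝ)))) ∧
    (∀ (Γ : Type) [Group Γ] (S : Set Γ) (_ : Subgroup.closure S = ⊤) (Y : Set Γ) (l : ℕ)
      (_ : ∀ y ∈ Y, (cayleyGraph S).dist 1 y ≤ l) (_ : Finite (Subgroup.closure Y)) (M r e : ℕ)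
      (_ : 1 ≤ M) (_ : Nat.card (Subgroup.closure Y) ≤ 2 ^ M)
      (_ : derivedSeries (Subgroup.closure Y) r = ⊥) (_ : 1 ≤ e)
      (_ : ∀ x ∈ Subgroup.closure Y, x ^ e = 1),
      ∀ x ∈ Subgroup.closure Y, (cayleyGraph S).dist 1 x ≤ 2 * M ^ 2 * e * 4 ^ r * l) ∧
    ((∃ C : ℕ, ∀ (n : ℕ) (_ : 5 ≤ n) (G : Subgroup (Perm (Fin n)))
      (_ : alternatingGroup (Fin n) ≤ G) (S : Set G) (_ : Subgroup.closure S = ⊤),
      (cayleyGraph S).diam ≤ n ^ C) ↔
    (∃ (C : ℕ) (ε : ℝ), 0 < ε ∧ ∀ (n : ℕ) (_ : 5 ≤ n) (G : Subgroup (Perm (Fin n)))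
      (_ : alternatingGroup (Fin n) ≤ G) (S : Set G) (_ : Subgroup.closure S = ⊤),
      ∃ (Q : Subgroup G) (g : G), IsPGroup 2 Q ∧ (2 : ℝ) ^ (ε * n) ≤
        ({x : G | g⁻¹ * x ∈ Q ∧ (cayleyGraph S).dist 1 x ≤ n ^ C}.ncard : ℝ))) := by
  refine ⟨fun n hn G hG S hS => ⟨fun Q a b hQ g l k hk hc =>
    Pool.Agent.Q179.BD.part1 hn hG hS hQ hk hc, fun Q hQ m hm g l hc =>
    Pool.Agent.Q179.BD.part2 hn hG hS hQ hm hc, fun Y l hY h2 => ⟨fun x hx =>
    Pool.Agent.Q179.BD.part3' hS hY h2 hx, fun k hk hk2 => ?_⟩,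
    fun Y l hY M r e a hM1 hM hr he hexp ha hk => ?_⟩,
    fun Γ _ S hS Y l hY _ M r e hM1 hM hr he hexp x hx =>
      Pool.Agent.Q179.BD.part3 hS hY hM1 hM hr he hexp hx, Pool.Agent.Q179.BD.equivalence⟩
  · have h := Pool.Agent.Q179.BD.part4' hn hG hS h2
      (fun x hx => Pool.Agent.Q179.BD.part3' hS hY h2 hx) hk hk2
    push_cast at h
    exact h
  · have h := Pool.Agent.Q179.BD.part4 hn hG hS (fun x hx =>
      Pool.Agent.Q179.BD.part3 hS hY hM1 hM hr he hexp hx) ha hk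
    push_cast at h
    exact h

end Pool.Agent.Results.MP_731536_al.TwoSubgroupCosets
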